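import Mathlib

/-!
# `S₁(Ω^s, Γ^s)` does not imply that `Q_p(X, ℝ)` is Fréchet-Urysohn

We construct in ZFC a Hausdorff space `X` such that every sequence of `ω`-covers of `X` by minimally
bounded sets admits a selection `U n` with every point in all but finitely many `U n` (so that `X`
has `S₁(Ω^s, Γ^s)` and `Q_p(X, ℝ)` is Fréchet-Urysohn at `0`), while `Q_p(X, ℝ)` is not
Fréchet-Urysohn at some other point `f`.

Let `C` be the countable set of clopen subsets of the Cantor space `I = 2^ω` and `D = ℕ × C`,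
topologized as a subspace of `ℕ × 2^I`.  Fix an ultrafilter `u` on `D` containing all dense open
sets and all tails.  For `α ∈ I` let `K α` be that one of the sets `{(n, c) : α ∈ c}` and
`{(n, c) : α ∉ c}` which is not in `u`.  The space `X` consists of two copies of `D` (open in `X`),
of two points `y 0, y 1`, where the neighbourhoods of `y i` are the sets containing `y i` and the
`i`-th copy of an open `O ∈ u`, and of points `e α` (`α ∈ I`), whose neighbourhoods are the sets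
containing `e α` and both copies of `O ∩ K α` for some open `O ∈ u` which does not depend on the
coordinate `α`.  Every open subset of `D` depends on countably many coordinates only; it follows
that a minimally bounded set containing `y 0` and `y 1` contains all but countably many `e α`.
-/

namespace Pool.Agent.Results.MP_76989b_gt.NotFrechetUrysohn

open Set Filter Topology

/-! ### The notions of the problem -/

/-- Quasicontinuous real functions. -/
def Quasicontinuous {X : Type*} [TopologicalSpace X] (f : X → ℝ) : Prop :=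
  ∀ x : X, ∀ U : Set X, IsOpen U → x ∈ U → ∀ V : Set ℝ, IsOpen V → f x ∈ V →
    ∃ W : Set X, IsOpen W ∧ W.Nonempty ∧ W ⊆ U ∧ f '' W ⊆ V

/-- The space `Q_p(X, ℝ)` of quasicontinuous real functions, a subspace of `ℝ^X`. -/
abbrev Qp (X : Type*) [TopologicalSpace X] : Type _ := {f : X → ℝ // Quasicontinuous f}

/-- The Fréchet-Urysohn property at a point. -/
def FrechetUrysohnAt {Y : Type*} [TopologicalSpace Y] (y : Y) : Prop :=
  ∀ A : Set Y, y ∈ closure A → ∃ s : ℕ → Y, (∀ n, s n ∈ A) ∧ Tendsto s atTop (𝓝 y)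

/-- Minimally bounded sets. -/
def MinBounded {X : Type*} [TopologicalSpace X] (A : Set X) : Prop :=
  A ⊆ closure (interior A) ∧ interior (closure A) ⊆ A

/-- `Ω^s`: the `ω`-covers by minimally bounded sets. -/
def OmegaS (X : Type*) [TopologicalSpace X] : Set (Set (Set X)) :=
  {U | ⋃₀ U = Set.univ ∧ (∀ u ∈ U, MinBounded u) ∧ ∀ F : Set X, F.Finite → ∃ u ∈ U, F ⊆ u}

/-- `Γ^s`: the `γ`-covers by minimally bounded sets. -/
def GammaS (X : Type*) [TopologicalSpace X] : Set (Set (Set X)) :=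
  {U | ⋃₀ U = Set.univ ∧ (∀ u ∈ U, MinBounded u) ∧ ∀ x : X, {u | u ∈ U ∧ x ∉ u}.Finite}

/-- The selection principle `S₁(Ω^s, Γ^s)`. -/
def S1OmegaGamma (X : Type*) [TopologicalSpace X] : Prop :=
  ∀ 𝒰 : ℕ → Set (Set X), (∀ n, 𝒰 n ∈ OmegaS X) →
    ∃ U : ℕ → Set X, (∀ n, U n ∈ 𝒰 n) ∧ Set.range U ∈ GammaS X

/-- The indexed form of the selection principle (formally stronger): from any sequence of members
of `Ω^s` one can select sets such that every point is in all but finitely many of them. -/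
def StrongSelection (X : Type*) [TopologicalSpace X] : Prop :=
  ∀ 𝒰 : ℕ → Set (Set X), (∀ n, 𝒰 n ∈ OmegaS X) →
    ∃ U : ℕ → Set X, (∀ n, U n ∈ 𝒰 n) ∧ ∀ x, ∀ᶠ n in atTop, x ∈ U n

lemma StrongSelection.s1 {X : Type*} [TopologicalSpace X] (h : StrongSelection X) :
    S1OmegaGamma X := by
  intro 𝒰 h𝒰
  obtain ⟨U, hU, hx⟩ := h 𝒰 h𝒰
  refine ⟨U, hU, ?_, ?_, ?_⟩
  · rw [Set.eq_univ_iff_forall]
    intro x
    obtain ⟨n, hn⟩ := (hx x).exists
    exact ⟨U n, ⟨n, rfl⟩, hn⟩
  · rintro _ ⟨n, rfl⟩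
    exact (h𝒰 n).2.1 _ (hU n)
  · intro x
    obtain ⟨N, hN⟩ := eventually_atTop.1 (hx x)
    refine ((Set.finite_lt_nat N).image U).subset ?_
    rintro _ ⟨⟨n, rfl⟩, hn⟩
    refine ⟨n, ?_, rfl⟩
    by_contra hcon
    exact hn (hN n (not_lt.1 hcon))

/-- A semi-open set becomes minimally bounded after adding the interior of its closure. -/
lemma minBounded_union {X : Type*} [TopologicalSpace X] {S : Set X}
    (hS : S ⊆ closure (interior S)) : MinBounded (S ∪ interior (closure S)) := by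
  have h1 : closure (S ∪ interior (closure S)) ⊆ closure S :=
    closure_minimal (Set.union_subset subset_closure interior_subset) isClosed_closure
  constructor
  · have h2 : interior S ⊆ interior (S ∪ interior (closure S)) :=
      interior_mono Set.subset_union_left
    have h3 : closure S ⊆ closure (interior S) := closure_minimal hS isClosed_closure
    refine Set.union_subset (hS.trans (closure_mono h2)) ?_
    exact (interior_subset.trans h3).trans (closure_mono h2)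
  · exact (interior_mono h1).trans Set.subset_union_right

/-- The constant zero function as a point of `Q_p(X, ℝ)`. -/
def zeroQ (X : Type*) [TopologicalSpace X] : Qp X :=
  ⟨fun _ => 0, fun x U hU hx V _ hV => ⟨U, hU, ⟨x, hx⟩, subset_rfl, by
    rintro _ ⟨_, _, rfl⟩
    exact hV⟩⟩

/-- The strong selection principle implies that `Q_p(X, ℝ)` is Fréchet-Urysohn at zero. -/
lemma StrongSelection.frechetUrysohnAt_zero {X : Type*} [TopologicalSpace X]
    (h : StrongSelection X) : FrechetUrysohnAt (zeroQ X) := by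
  intro A hA
  set S : Qp X → ℕ → Set X := fun g n => {x | |g.1 x| < 1 / ((n : ℝ) + 1)} with hS
  have hsemi : ∀ g n, S g n ⊆ closure (interior (S g n)) := by
    intro g n x hx
    rw [mem_closure_iff]
    intro G hG hxG
    have hopen : IsOpen {t : ℝ | |t| < 1 / ((n : ℝ) + 1)} := isOpen_lt continuous_abs continuous_const
    obtain ⟨W, hW, hne, hWG, hWV⟩ := g.2 x G hG hxG _ hopen hx
    obtain ⟨w, hw⟩ := hne
    refine ⟨w, hWG hw, ?_⟩
    rw [mem_interior]
    exact ⟨W, fun z hz => hWV ⟨z, hz, rfl⟩, hW, hw⟩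
  set T : Qp X → ℕ → Set X := fun g n => S g n ∪ interior (closure (S g n)) with hT
  have hTbound : ∀ g n, ∀ x ∈ T g n, |g.1 x| ≤ 1 / ((n : ℝ) + 1) := by
    intro g n x hx
    rcases hx with hx | hx
    · exact le_of_lt hx
    · by_contra hcon
      push Not at hcon
      have hopen : IsOpen {t : ℝ | 1 / ((n : ℝ) + 1) < |t|} :=
        isOpen_lt continuous_const continuous_abs
      obtain ⟨W, hW, hne, hWG, hWV⟩ := g.2 x _ isOpen_interior hx _ hopen hcon
      obtain ⟨w, hw⟩ := hne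
      have h1 : w ∈ closure (S g n) := interior_subset (hWG hw)
      obtain ⟨z, hzW, hzS⟩ := mem_closure_iff.1 h1 W hW hw
      have h2 : 1 / ((n : ℝ) + 1) < |g.1 z| := hWV ⟨z, hzW, rfl⟩
      exact absurd (lt_trans h2 hzS) (lt_irrefl _)
  have hcov : ∀ n, (fun g => T g n) '' A ∈ OmegaS X := by
    intro n
    have hfin : ∀ F : Set X, F.Finite → ∃ u ∈ (fun g => T g n) '' A, F ⊆ u := by
      intro F hF
      have hopen : IsOpen {g : Qp X | ∀ x ∈ F, |g.1 x| < 1 / ((n : ℝ) + 1)} := by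
        have h1 : {g : Qp X | ∀ x ∈ F, |g.1 x| < 1 / ((n : ℝ) + 1)} =
            ⋂ x ∈ F, {g : Qp X | |g.1 x| < 1 / ((n : ℝ) + 1)} := by
          ext g
          simp
        rw [h1]
        refine hF.isOpen_biInter fun x _ => ?_
        have h2 : Continuous fun g : Qp X => |g.1 x| :=
          ((continuous_apply x).comp continuous_subtype_val).abs
        exact isOpen_lt h2 continuous_const
      have hmem : zeroQ X ∈ {g : Qp X | ∀ x ∈ F, |g.1 x| < 1 / ((n : ℝ) + 1)} := by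
        intro x _
        show |(0 : ℝ)| < _
        rw [abs_zero]
        positivity
      obtain ⟨g, hg, hgA⟩ := mem_closure_iff.1 hA _ hopen hmem
      exact ⟨T g n, ⟨g, hgA, rfl⟩, fun x hx => Or.inl (hg x hx)⟩
    refine ⟨?_, ?_, hfin⟩
    · rw [Set.eq_univ_iff_forall]
      intro x
      obtain ⟨u, hu, hxu⟩ := hfin {x} (Set.finite_singleton x)
      exact ⟨u, hu, hxu rfl⟩
    · rintro _ ⟨g, _, rfl⟩
      exact minBounded_union (hsemi g n)
  obtain ⟨U, hU, hx⟩ := h _ hcov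
  choose s hsA hs using hU
  refine ⟨s, hsA, ?_⟩
  rw [tendsto_subtype_rng, tendsto_pi_nhds]
  intro x
  show Tendsto (fun n => (s n).1 x) atTop (𝓝 0)
  refine squeeze_zero_norm' ?_ tendsto_one_div_add_atTop_nhds_zero_nat
  filter_upwards [hx x] with n hn
  rw [← hs n] at hn
  exact hTbound (s n) n x hn

/-! ### The countable dense set and the ultrafilter -/

/-- The Cantor space, used as the uncountable index set. -/
abbrev I : Type := ℕ → Bool

/-- The countable set of clopen subsets of the Cantor space. -/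
abbrev C : Type := TopologicalSpace.Clopens I

/-- The countable set `D = ℕ × C`. -/
abbrev D : Type := ℕ × C

instance : Countable C := TopologicalSpace.Clopens.countable_iff_secondCountable.2 inferInstance

/-- `q` and `q'` have the same first coordinate and agree on the finite set `F`. -/
def Agree (F : Finset I) (q q' : D) : Prop := q.1 = q'.1 ∧ ∀ x ∈ F, x ∈ q.2 ↔ x ∈ q'.2

lemma Agree.refl (F : Finset I) (q : D) : Agree F q q := ⟨rfl, fun _ _ => Iff.rfl⟩

lemma Agree.trans {F : Finset I} {q q' q'' : D} (h : Agree F q q') (h' : Agree F q' q'') :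
    Agree F q q'' := ⟨h.1.trans h'.1, fun x hx => (h.2 x hx).trans (h'.2 x hx)⟩

lemma Agree.mono {F F' : Finset I} {q q' : D} (hF : F ⊆ F') (h : Agree F' q q') : Agree F q q' :=
  ⟨h.1, fun x hx => h.2 x (hF hx)⟩

/-- Open subsets of `D`. -/
def Op (O : Set D) : Prop := ∀ q ∈ O, ∃ F, ∀ q', Agree F q q' → q' ∈ O

/-- `O` is open and does not depend on the coordinate `α`. -/
def Av (α : I) (O : Set D) : Prop := ∀ q ∈ O, ∃ F, α ∉ F ∧ ∀ q', Agree F q q' → q' ∈ O

lemma Av.op {α : I} {O : Set D} (h : Av α O) : Op O := fun q hq => by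
  obtain ⟨F, _, hF⟩ := h q hq
  exact ⟨F, hF⟩

lemma Op.inter {O O' : Set D} (h : Op O) (h' : Op O') : Op (O ∩ O') := by
  classical
  rintro q ⟨hq, hq'⟩
  obtain ⟨F, hF⟩ := h q hq
  obtain ⟨F', hF'⟩ := h' q hq'
  exact ⟨F ∪ F', fun r hr => ⟨hF r (hr.mono Finset.subset_union_left),
    hF' r (hr.mono Finset.subset_union_right)⟩⟩

lemma Av.inter {α : I} {O O' : Set D} (h : Av α O) (h' : Av α O') : Av α (O ∩ O') := by
  classical
  rintro q ⟨hq, hq'⟩
  obtain ⟨F, hα, hF⟩ := h q hq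
  obtain ⟨F', hα', hF'⟩ := h' q hq'
  refine ⟨F ∪ F', ?_, fun r hr => ⟨hF r (hr.mono Finset.subset_union_left),
    hF' r (hr.mono Finset.subset_union_right)⟩⟩
  rw [Finset.mem_union, not_or]
  exact ⟨hα, hα'⟩

lemma Op.union {O O' : Set D} (h : Op O) (h' : Op O') : Op (O ∪ O') := by
  rintro q (hq | hq)
  · obtain ⟨F, hF⟩ := h q hq
    exact ⟨F, fun r hr => Or.inl (hF r hr)⟩
  · obtain ⟨F, hF⟩ := h' q hq
    exact ⟨F, fun r hr => Or.inr (hF r hr)⟩

/-- The interior of the complement. -/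
def ext (O : Set D) : Set D := {q | ∃ F, ∀ q', Agree F q q' → q' ∉ O}

lemma ext_op (O : Set D) : Op (ext O) := by
  rintro q ⟨F, hF⟩
  exact ⟨F, fun r hr => ⟨F, fun s hs => hF s (hr.trans hs)⟩⟩

/-- Dense open subsets of `D`. -/
def DenseOp (O : Set D) : Prop := Op O ∧ ∀ q F, ∃ q' ∈ O, Agree F q q'

lemma DenseOp.inter {O O' : Set D} (h : DenseOp O) (h' : DenseOp O') : DenseOp (O ∩ O') := by
  classical
  refine ⟨h.1.inter h'.1, fun q F => ?_⟩
  obtain ⟨r, hr, hqr⟩ := h.2 q F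
  obtain ⟨F', hF'⟩ := h.1 r hr
  obtain ⟨s, hs, hrs⟩ := h'.2 r (F ∪ F')
  exact ⟨s, ⟨hF' s (hrs.mono Finset.subset_union_right), hs⟩,
    hqr.trans (hrs.mono Finset.subset_union_left)⟩

lemma denseOp_union_ext {O : Set D} (h : Op O) : DenseOp (O ∪ ext O) := by
  refine ⟨h.union (ext_op O), fun q F => ?_⟩
  by_cases hq : ∃ q', Agree F q q' ∧ q' ∈ O
  · obtain ⟨q', h1, h2⟩ := hq
    exact ⟨q', Or.inl h2, h1⟩
  · push Not at hq
    exact ⟨q, Or.inr ⟨F, hq⟩, Agree.refl F q⟩

/-- Tails. -/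
def tail (k : ℕ) : Set D := {q | k ≤ q.1}

lemma tail_av (k : ℕ) (α : I) : Av α (tail k) := by
  intro q hq
  refine ⟨∅, by simp, fun r hr => ?_⟩
  show k ≤ r.1
  rw [← hr.1]
  exact hq

/-- The filter generated by the dense open sets and the tails. -/
def baseFilter : Filter D where
  sets := {S | ∃ O k, DenseOp O ∧ O ∩ tail k ⊆ S}
  univ_sets := ⟨Set.univ, 0, ⟨fun _ _ => ⟨∅, fun _ _ => trivial⟩,
    fun q F => ⟨q, trivial, Agree.refl F q⟩⟩, Set.subset_univ _⟩
  sets_of_superset := by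
    rintro S S' ⟨O, k, hO, hS⟩ h
    exact ⟨O, k, hO, hS.trans h⟩
  inter_sets := by
    rintro S S' ⟨O, k, hO, hS⟩ ⟨O', k', hO', hS'⟩
    refine ⟨O ∩ O', max k k', hO.inter hO', ?_⟩
    rintro q ⟨⟨h1, h2⟩, h3⟩
    exact ⟨hS ⟨h1, (le_max_left k k').trans h3⟩, hS' ⟨h2, (le_max_right k k').trans h3⟩⟩

instance : NeBot baseFilter := by
  rw [neBot_iff]
  intro h
  have h1 : (∅ : Set D) ∈ baseFilter := by
    rw [h]
    exact mem_bot
  obtain ⟨O, k, hO, hsub⟩ := h1
  obtain ⟨q, hq, hag⟩ := hO.2 (k, (⊤ : C)) ∅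
  exact hsub ⟨hq, hag.1.le⟩

/-- The ultrafilter `u`. -/
noncomputable def u : Ultrafilter D := Ultrafilter.of baseFilter

lemma denseOp_mem {O : Set D} (h : DenseOp O) : O ∈ u :=
  Ultrafilter.of_le baseFilter ⟨O, 0, h, Set.inter_subset_left⟩

lemma tail_mem (k : ℕ) : tail k ∈ u :=
  Ultrafilter.of_le baseFilter ⟨Set.univ, k, ⟨fun _ _ => ⟨∅, fun _ _ => trivial⟩,
    fun q F => ⟨q, trivial, Agree.refl F q⟩⟩, Set.inter_subset_right⟩

lemma mem_or_ext_mem {O : Set D} (h : Op O) : O ∈ u ∨ ext O ∈ u :=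
  Ultrafilter.union_mem_iff.1 (denseOp_mem (denseOp_union_ext h))

open Classical in
/-- The half `K α` of `D` given by the coordinate `α` which is not in `u`. -/
noncomputable def K (α : I) : Set D :=
  if {q : D | α ∈ q.2} ∈ u then {q : D | α ∉ q.2} else {q : D | α ∈ q.2}

lemma K_compl_mem (α : I) : (K α)ᶜ ∈ u := by
  unfold K
  split_ifs with h
  · have : {q : D | α ∉ q.2}ᶜ = {q : D | α ∈ q.2} := by
      ext q
      simp
    rw [this]
    exact h
  · exact Ultrafilter.compl_mem_iff_notMem.2 h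

lemma mem_K_congr {α : I} {q q' : D} (h : α ∈ q.2 ↔ α ∈ q'.2) : q ∈ K α ↔ q' ∈ K α := by
  unfold K
  split_ifs
  · exact not_congr h
  · exact h

lemma K_op (α : I) : Op (K α) := fun q hq =>
  ⟨{α}, fun _ hr => (mem_K_congr (hr.2 α (Finset.mem_singleton_self α))).1 hq⟩

lemma K_compl_av {α β : I} (h : α ≠ β) : Av α (K β)ᶜ := fun q hq =>
  ⟨{β}, by simpa using h, fun _ hr hr' =>
    hq ((mem_K_congr (hr.2 β (Finset.mem_singleton_self β))).2 hr')⟩

lemma K_compl_op (β : I) : Op (K β)ᶜ := fun q hq =>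
  ⟨{β}, fun _ hr hr' => hq ((mem_K_congr (hr.2 β (Finset.mem_singleton_self β))).2 hr')⟩

/-- Coordinates outside a finite set can be prescribed. -/
lemma exists_agree (F : Finset I) {α : I} (hα : α ∉ F) (q : D) : ∃ q', Agree F q q' ∧ q' ∈ K α := by
  have hopen : IsOpen ((F : Set I)ᶜ) := F.finite_toSet.isClosed.isOpen_compl
  obtain ⟨V, hV, hαV, hVF⟩ := compact_exists_isClopen_in_isOpen hopen (show α ∈ (F : Set I)ᶜ from hα)
  have hVF' : ∀ x ∈ F, x ∉ V := fun x hx hxV => hVF hxV hx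
  have hcases : ∀ b : Prop, ∃ c : C, (∀ x ∈ F, x ∈ q.2 ↔ x ∈ c) ∧ (α ∈ c ↔ b) := by
    intro b
    by_cases hb : b
    · refine ⟨q.2 ⊔ ⟨V, hV⟩, fun x hx => ?_, ?_⟩
      · constructor
        · intro h
          exact Or.inl h
        · rintro (h | h)
          · exact h
          · exact absurd h (hVF' x hx)
      · exact ⟨fun _ => hb, fun _ => Or.inr hαV⟩
    · refine ⟨q.2 ⊓ (⟨V, hV⟩ : C)ᶜ, fun x hx => ?_, ?_⟩
      · constructor
        · intro h
          exact ⟨h, hVF' x hx⟩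
        · intro h
          exact h.1
      · exact ⟨fun h => absurd hαV h.2, fun h => absurd h hb⟩
  by_cases hK : {q : D | α ∈ q.2} ∈ u
  · obtain ⟨c, hc, hαc⟩ := hcases False
    refine ⟨(q.1, c), ⟨rfl, hc⟩, ?_⟩
    unfold K
    rw [if_pos hK]
    exact fun h => hαc.1 h
  · obtain ⟨c, hc, hαc⟩ := hcases True
    refine ⟨(q.1, c), ⟨rfl, hc⟩, ?_⟩
    unfold K
    rw [if_neg hK]
    exact hαc.2 trivial

/-- Sets not depending on `α` in the ultrafilter meet `K α`. -/
lemma Av.inter_K_nonempty {α : I} {O : Set D} (h : Av α O) (hO : O ∈ u) : (O ∩ K α).Nonempty := by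
  obtain ⟨q, hq⟩ := u.nonempty_of_mem hO
  obtain ⟨F, hα, hF⟩ := h q hq
  obtain ⟨r, hr, hrK⟩ := exists_agree F hα q
  exact ⟨r, hF r hr, hrK⟩

/-- Every open subset of `D` depends on countably many coordinates only. -/
lemma Op.exists_support {O : Set D} (h : Op O) : ∃ a : Set I, a.Countable ∧ ∀ α ∉ a, Av α O := by
  have h1 : ∀ q : D, ∃ F : Finset I, q ∈ O → ∀ q', Agree F q q' → q' ∈ O := by
    intro q
    by_cases hq : q ∈ O
    · obtain ⟨F, hF⟩ := h q hq
      exact ⟨F, fun _ => hF⟩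
    · exact ⟨∅, fun h => absurd h hq⟩
  choose F hF using h1
  refine ⟨⋃ q, (F q : Set I), Set.countable_iUnion fun q => (F q).countable_toSet, ?_⟩
  intro α hα q hq
  exact ⟨F q, fun h => hα (Set.mem_iUnion.2 ⟨q, h⟩), hF q hq⟩

/-! ### The space -/

/-- The underlying set of the space. -/
inductive Pt : Type
  | d (i : Bool) (q : D)
  | y (i : Bool)
  | e (α : I)

open Pt

/-- The topology of the space. -/
instance topPt : TopologicalSpace Pt where
  IsOpen G := (∀ i, Op {q | d i q ∈ G}) ∧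
    (∀ i, y i ∈ G → ∃ O, Op O ∧ O ∈ u ∧ ∀ q ∈ O, d i q ∈ G) ∧
    (∀ α, e α ∈ G → ∃ O, Av α O ∧ O ∈ u ∧ ∀ i, ∀ q ∈ O, q ∈ K α → d i q ∈ G)
  isOpen_univ := by
    refine ⟨fun _ _ _ => ⟨∅, fun _ _ => trivial⟩, fun _ _ => ⟨tail 0, ?_, tail_mem 0,
      fun _ _ => trivial⟩, fun α _ => ⟨tail 0, tail_av 0 α, tail_mem 0, fun _ _ _ _ => trivial⟩⟩
    exact (tail_av 0 (fun _ => true)).op
  isOpen_inter := by
    rintro G G' ⟨h1, h2, h3⟩ ⟨h1', h2', h3'⟩
    refine ⟨fun i => (h1 i).inter (h1' i), fun i hi => ?_, fun α hα => ?_⟩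
    · obtain ⟨O, hO, hOu, hOG⟩ := h2 i hi.1
      obtain ⟨O', hO', hOu', hOG'⟩ := h2' i hi.2
      exact ⟨O ∩ O', hO.inter hO', inter_mem hOu hOu', fun q hq => ⟨hOG q hq.1, hOG' q hq.2⟩⟩
    · obtain ⟨O, hO, hOu, hOG⟩ := h3 α hα.1
      obtain ⟨O', hO', hOu', hOG'⟩ := h3' α hα.2
      exact ⟨O ∩ O', hO.inter hO', inter_mem hOu hOu', fun i q hq hqK =>
        ⟨hOG i q hq.1 hqK, hOG' i q hq.2 hqK⟩⟩
  isOpen_sUnion := by
    intro 𝓖 h
    refine ⟨fun i q hq => ?_, fun i hi => ?_, fun α hα => ?_⟩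
    · obtain ⟨G, hG, hqG⟩ := hq
      obtain ⟨F, hF⟩ := (h G hG).1 i q hqG
      exact ⟨F, fun r hr => ⟨G, hG, hF r hr⟩⟩
    · obtain ⟨G, hG, hiG⟩ := hi
      obtain ⟨O, hO, hOu, hOG⟩ := (h G hG).2.1 i hiG
      exact ⟨O, hO, hOu, fun q hq => ⟨G, hG, hOG q hq⟩⟩
    · obtain ⟨G, hG, hαG⟩ := hα
      obtain ⟨O, hO, hOu, hOG⟩ := (h G hG).2.2 α hαG
      exact ⟨O, hO, hOu, fun i q hq hqK => ⟨G, hG, hOG i q hq hqK⟩⟩

lemma isOpen_iff {G : Set Pt} : IsOpen G ↔ (∀ i, Op {q | d i q ∈ G}) ∧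
    (∀ i, y i ∈ G → ∃ O, Op O ∧ O ∈ u ∧ ∀ q ∈ O, d i q ∈ G) ∧
    (∀ α, e α ∈ G → ∃ O, Av α O ∧ O ∈ u ∧ ∀ i, ∀ q ∈ O, q ∈ K α → d i q ∈ G) := Iff.rfl

/-- Copies of open subsets of `D` in the `i`-th copy. -/
def cpy (i : Bool) (O : Set D) : Set Pt := {p | ∃ q ∈ O, p = d i q}

/-- Neighbourhoods of `y i`. -/
def nbY (i : Bool) (O : Set D) : Set Pt := {p | p = y i ∨ ∃ q ∈ O, p = d i q}

/-- Neighbourhoods of `e α`. -/
def nbE (α : I) (O : Set D) : Set Pt := {p | p = e α ∨ ∃ i, ∃ q ∈ O, p = d i q}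

lemma isOpen_cpy (i : Bool) {O : Set D} (h : Op O) : IsOpen (cpy i O) := by
  refine isOpen_iff.2 ⟨fun j q hq => ?_, fun j hj => ?_, fun α hα => ?_⟩
  · obtain ⟨r, hr, hqr⟩ := hq
    injection hqr with h1 h2
    subst h1 h2
    obtain ⟨F, hF⟩ := h q hr
    exact ⟨F, fun s hs => ⟨s, hF s hs, rfl⟩⟩
  · obtain ⟨r, _, hr⟩ := hj
    exact absurd hr (by simp)
  · obtain ⟨r, _, hr⟩ := hα
    exact absurd hr (by simp)

lemma isOpen_nbY (i : Bool) {O : Set D} (h : Op O) (hu : O ∈ u) : IsOpen (nbY i O) := by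
  refine isOpen_iff.2 ⟨fun j q hq => ?_, fun j hj => ?_, fun α hα => ?_⟩
  · rcases hq with hq | ⟨r, hr, hqr⟩
    · exact absurd hq (by simp)
    · injection hqr with h1 h2
      subst h1 h2
      obtain ⟨F, hF⟩ := h q hr
      exact ⟨F, fun s hs => Or.inr ⟨s, hF s hs, rfl⟩⟩
  · rcases hj with hj | ⟨r, _, hr⟩
    · injection hj with h1
      subst h1
      exact ⟨O, h, hu, fun q hq => Or.inr ⟨q, hq, rfl⟩⟩
    · exact absurd hr (by simp)
  · rcases hα with hα | ⟨r, _, hr⟩
    · exact absurd hα (by simp)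
    · exact absurd hr (by simp)

lemma isOpen_nbE {α : I} {O O' : Set D} (h : Op O) (h' : Av α O') (hu : O' ∈ u)
    (hsub : O' ∩ K α ⊆ O) : IsOpen (nbE α O) := by
  refine isOpen_iff.2 ⟨fun j q hq => ?_, fun j hj => ?_, fun β hβ => ?_⟩
  · rcases hq with hq | ⟨i, r, hr, hqr⟩
    · exact absurd hq (by simp)
    · injection hqr with h1 h2
      subst h1 h2
      obtain ⟨F, hF⟩ := h q hr
      exact ⟨F, fun s hs => Or.inr ⟨j, s, hF s hs, rfl⟩⟩
  · rcases hj with hj | ⟨i, r, _, hr⟩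
    · exact absurd hj (by simp)
    · exact absurd hr (by simp)
  · rcases hβ with hβ | ⟨i, r, _, hr⟩
    · injection hβ with h1
      subst h1
      exact ⟨O', h', hu, fun i q hq hqK => Or.inr ⟨i, q, hsub ⟨hq, hqK⟩, rfl⟩⟩
    · exact absurd hr (by simp)

/-- The separation of distinct points, up to symmetry. -/
lemma separated : ∀ p p' : Pt, p ≠ p' →
    ∃ G G' : Set Pt, IsOpen G ∧ IsOpen G' ∧ p ∈ G ∧ p' ∈ G' ∧ Disjoint G G' := by
  have hsymm : ∀ p p' : Pt, (∃ G G' : Set Pt, IsOpen G ∧ IsOpen G' ∧ p ∈ G ∧ p' ∈ G' ∧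
      Disjoint G G') → ∃ G G' : Set Pt, IsOpen G ∧ IsOpen G' ∧ p' ∈ G ∧ p ∈ G' ∧
      Disjoint G G' := by
    rintro p p' ⟨G, G', h1, h2, h3, h4, h5⟩
    exact ⟨G', G, h2, h1, h4, h3, h5.symm⟩
  -- `d` and `y`
  have hdy : ∀ i q j, ∃ G G' : Set Pt, IsOpen G ∧ IsOpen G' ∧ d i q ∈ G ∧ y j ∈ G' ∧
      Disjoint G G' := by
    intro i q j
    refine ⟨cpy i {r | r.1 = q.1}, nbY j (tail (q.1 + 1)), isOpen_cpy i ?_,
      isOpen_nbY j (tail_av _ (fun _ => true)).op (tail_mem _), ⟨q, rfl, rfl⟩, Or.inl rfl, ?_⟩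
    · intro r hr
      exact ⟨∅, fun s hs => hs.1.symm.trans hr⟩
    · rw [Set.disjoint_left]
      rintro _ ⟨r, hr, rfl⟩ (h | ⟨s, hs, h⟩)
      · exact absurd h (by simp)
      · injection h with h1 h2
        subst h2
        have h3 : q.1 + 1 ≤ r.1 := hs
        have h4 : r.1 = q.1 := hr
        omega
  -- `d` and `e`
  have hde : ∀ i q α, ∃ G G' : Set Pt, IsOpen G ∧ IsOpen G' ∧ d i q ∈ G ∧ e α ∈ G' ∧
      Disjoint G G' := by
    intro i q α
    refine ⟨cpy i {r | r.1 = q.1}, nbE α (tail (q.1 + 1)), isOpen_cpy i ?_,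
      isOpen_nbE (tail_av _ α).op (tail_av _ α) (tail_mem _) Set.inter_subset_left,
      ⟨q, rfl, rfl⟩, Or.inl rfl, ?_⟩
    · intro r hr
      exact ⟨∅, fun s hs => hs.1.symm.trans hr⟩
    · rw [Set.disjoint_left]
      rintro _ ⟨r, hr, rfl⟩ (h | ⟨j, s, hs, h⟩)
      · exact absurd h (by simp)
      · injection h with h1 h2
        subst h2
        have h3 : q.1 + 1 ≤ r.1 := hs
        have h4 : r.1 = q.1 := hr
        omega
  -- `y` and `e`
  have hye : ∀ i α, ∃ G G' : Set Pt, IsOpen G ∧ IsOpen G' ∧ y i ∈ G ∧ e α ∈ G' ∧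
      Disjoint G G' := by
    intro i α
    refine ⟨nbY i (K α)ᶜ, nbE α (K α), isOpen_nbY i (K_compl_op α) (K_compl_mem α),
      isOpen_nbE (K_op α) (tail_av 0 α) (tail_mem 0) Set.inter_subset_right, Or.inl rfl,
      Or.inl rfl, ?_⟩
    rw [Set.disjoint_left]
    rintro _ (rfl | ⟨r, hr, rfl⟩) (h | ⟨j, s, hs, h⟩)
    · exact absurd h (by simp)
    · exact absurd h (by simp)
    · exact absurd h (by simp)
    · injection h with h1 h2
      subst h2
      exact hr hs
  intro p p' hne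
  rcases p with ⟨i, q⟩ | i | α <;> rcases p' with ⟨j, r⟩ | j | β
  · by_cases hij : i = j
    · subst hij
      by_cases hq1 : q.1 = r.1
      · have hq2 : q.2 ≠ r.2 := by
          intro h
          exact hne (by rw [Prod.ext hq1 h])
        have h1 : ∃ x, ¬ (x ∈ q.2 ↔ x ∈ r.2) := by
          by_contra hcon
          push Not at hcon
          exact hq2 (SetLike.ext hcon)
        obtain ⟨x, hx⟩ := h1
        refine ⟨cpy i {s | x ∈ s.2 ↔ x ∈ q.2}, cpy i {s | x ∈ s.2 ↔ x ∈ r.2}, isOpen_cpy i ?_,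
          isOpen_cpy i ?_, ⟨q, Iff.rfl, rfl⟩, ⟨r, Iff.rfl, rfl⟩, ?_⟩
        · intro s hs
          exact ⟨{x}, fun t ht => (ht.2 x (Finset.mem_singleton_self x)).symm.trans hs⟩
        · intro s hs
          exact ⟨{x}, fun t ht => (ht.2 x (Finset.mem_singleton_self x)).symm.trans hs⟩
        · rw [Set.disjoint_left]
          rintro _ ⟨s, hs, rfl⟩ ⟨t, ht, h⟩
          injection h with h1 h2
          subst h2
          have h3 : x ∈ s.2 ↔ x ∈ q.2 := hs
          have h4 : x ∈ s.2 ↔ x ∈ r.2 := ht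
          exact hx (h3.symm.trans h4)
      · refine ⟨cpy i {s | s.1 = q.1}, cpy i {s | s.1 = r.1}, isOpen_cpy i ?_, isOpen_cpy i ?_,
          ⟨q, rfl, rfl⟩, ⟨r, rfl, rfl⟩, ?_⟩
        · intro s hs
          exact ⟨∅, fun t ht => ht.1.symm.trans hs⟩
        · intro s hs
          exact ⟨∅, fun t ht => ht.1.symm.trans hs⟩
        · rw [Set.disjoint_left]
          rintro _ ⟨s, hs, rfl⟩ ⟨t, ht, h⟩
          injection h with h1 h2
          subst h2
          have h3 : s.1 = q.1 := hs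
          have h4 : s.1 = r.1 := ht
          exact hq1 (h3.symm.trans h4)
    · refine ⟨cpy i Set.univ, cpy j Set.univ, isOpen_cpy i fun _ _ => ⟨∅, fun _ _ => trivial⟩,
        isOpen_cpy j fun _ _ => ⟨∅, fun _ _ => trivial⟩, ⟨q, trivial, rfl⟩, ⟨r, trivial, rfl⟩, ?_⟩
      rw [Set.disjoint_left]
      rintro _ ⟨s, hs, rfl⟩ ⟨t, ht, h⟩
      injection h with h1 h2
      exact hij h1
  · exact hdy i q j
  · exact hde i q β
  · exact hsymm _ _ (hdy j r i)
  · have hij : i ≠ j := fun h => hne (by rw [h])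
    have hop : Op (tail 0) := (tail_av 0 (fun _ => true)).op
    refine ⟨nbY i (tail 0), nbY j (tail 0), isOpen_nbY i hop (tail_mem 0),
      isOpen_nbY j hop (tail_mem 0), Or.inl rfl, Or.inl rfl, ?_⟩
    rw [Set.disjoint_left]
    rintro _ (rfl | ⟨s, hs, rfl⟩) (h | ⟨t, ht, h⟩)
    · injection h with h1
      exact hij h1
    · exact absurd h (by simp)
    · exact absurd h (by simp)
    · injection h with h1 h2
      exact hij h1
  · exact hye i β
  · exact hsymm _ _ (hde j r α)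
  · exact hsymm _ _ (hye j α)
  · have hαβ : α ≠ β := fun h => hne (by rw [h])
    refine ⟨nbE α (K α ∩ (K β)ᶜ), nbE β (K β ∩ (K α)ᶜ),
      isOpen_nbE ((K_op α).inter (K_compl_op β)) (K_compl_av hαβ) (K_compl_mem β)
        (fun q hq => ⟨hq.2, hq.1⟩),
      isOpen_nbE ((K_op β).inter (K_compl_op α)) (K_compl_av hαβ.symm) (K_compl_mem α)
        (fun q hq => ⟨hq.2, hq.1⟩), Or.inl rfl, Or.inl rfl, ?_⟩
    rw [Set.disjoint_left]
    rintro _ (rfl | ⟨i, s, hs, rfl⟩) (h | ⟨j, t, ht, h⟩)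
    · injection h with h1
      exact hαβ h1
    · exact absurd h (by simp)
    · exact absurd h (by simp)
    · injection h with h1 h2
      subst h2
      exact hs.2 ht.1

instance : T2Space Pt := by
  refine ⟨fun p p' hne => ?_⟩
  obtain ⟨G, G', h1, h2, h3, h4, h5⟩ := separated p p' hne
  exact ⟨G, G', h1, h2, h3, h4, h5⟩

/-- **Main lemma.**  A minimally bounded set containing `y 0` and `y 1` contains all but countably
many of the points `e α`. -/
lemma countable_missing {S : Set Pt} (hS : MinBounded S) (hy : ∀ i, y i ∈ S) :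
    {α | e α ∉ S}.Countable := by
  set A : Bool → Set D := fun i => {q | d i q ∈ interior S} with hA
  have hAop : ∀ i, Op (A i) := fun i => (isOpen_iff.1 isOpen_interior).1 i
  have hAu : ∀ i, A i ∈ u := by
    intro i
    rcases mem_or_ext_mem (hAop i) with h | h
    · exact h
    · exfalso
      have h1 : y i ∈ closure (interior S) := hS.1 (hy i)
      obtain ⟨p, hp, hpS⟩ := mem_closure_iff.1 h1 (nbY i (ext (A i)))
        (isOpen_nbY i (ext_op _) h) (Or.inl rfl)
      rcases hp with rfl | ⟨q, ⟨F, hF⟩, rfl⟩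
      · obtain ⟨O, hO, hOu, hOS⟩ := (isOpen_iff.1 isOpen_interior).2.1 i hpS
        obtain ⟨q, hqO, ⟨F, hF⟩⟩ := u.nonempty_of_mem (inter_mem hOu h)
        exact hF q (Agree.refl F q) (hOS q hqO)
      · exact hF q (Agree.refl F q) hpS
  obtain ⟨a, ha, haA⟩ := (hAop false).exists_support
  obtain ⟨b, hb, hbA⟩ := (hAop true).exists_support
  refine (ha.union hb).mono ?_
  intro α hα
  by_contra hcon
  simp only [Set.mem_union, not_or] at hcon
  have hav : ∀ i, Av α (A i) := by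
    intro i
    cases i
    · exact haA α hcon.1
    · exact hbA α hcon.2
  apply hα
  apply hS.2
  rw [mem_interior]
  set O : Set D := A false ∩ A true with hO
  have hOsub : ∀ i, O ⊆ A i := by
    intro i
    cases i
    · exact Set.inter_subset_left
    · exact Set.inter_subset_right
  refine ⟨nbE α O, ?_, isOpen_nbE ((hAop false).inter (hAop true)) ((hav false).inter (hav true))
    (inter_mem (hAu false) (hAu true)) Set.inter_subset_left, Or.inl rfl⟩
  rintro _ (rfl | ⟨i, q, hq, rfl⟩)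
  · rw [mem_closure_iff]
    intro G hG hαG
    obtain ⟨O', hO', hOu', hOG'⟩ := (isOpen_iff.1 hG).2.2 α hαG
    obtain ⟨q, ⟨hq1, hq2⟩, hqK⟩ := (hO'.inter (hav false)).inter_K_nonempty
      (inter_mem hOu' (hAu false))
    exact ⟨d false q, hOG' false q hq1 hqK, interior_subset hq2⟩
  · exact subset_closure (interior_subset (hOsub i hq))

/-- The countable part of the space. -/
def base : Set Pt := {p | ∀ α, p ≠ e α}

lemma base_countable : base.Countable := by
  have h1 : (Set.range (fun x : Bool × D => d x.1 x.2) ∪ Set.range y).Countable :=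
    (Set.countable_range _).union (Set.countable_range _)
  refine h1.mono ?_
  rintro (⟨i, q⟩ | i | α) hp
  · exact Or.inl ⟨(i, q), rfl⟩
  · exact Or.inr ⟨i, rfl⟩
  · exact absurd rfl (hp α)

/-- The space has the strong form of `S₁(Ω^s, Γ^s)`. -/
lemma strongSelection : StrongSelection Pt := by
  classical
  intro 𝒰 h𝒰
  have h1 : ∀ (n : ℕ) (Φ : Set Pt), ∃ S, Φ.Finite → S ∈ 𝒰 n ∧ Φ ⊆ S ∧ {α | e α ∉ S}.Countable := by
    intro n Φ
    by_cases hΦ : Φ.Finite
    · obtain ⟨S, hS, hsub⟩ := (h𝒰 n).2.2 (Φ ∪ Set.range y) (hΦ.union (Set.finite_range y))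
      exact ⟨S, fun _ => ⟨hS, fun p hp => hsub (Or.inl hp),
        countable_missing ((h𝒰 n).2.1 S hS) fun i => hsub (Or.inr ⟨i, rfl⟩)⟩⟩
    · exact ⟨∅, fun h => absurd h hΦ⟩
  choose S hS using h1
  -- closing off
  set T : Set I → Set Pt := fun a => base ∪ e '' a with hT
  set step : Set I → Set I := fun a =>
    a ∪ ⋃ n : ℕ, ⋃ Φ ∈ {Φ : Set Pt | Φ.Finite ∧ Φ ⊆ T a}, {α | e α ∉ S n Φ} with hstep
  have hstepc : ∀ a : Set I, a.Countable → (step a).Countable := by
    intro a ha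
    refine ha.union (Set.countable_iUnion fun n => Set.Countable.biUnion ?_ fun Φ hΦ => ?_)
    · exact Set.countable_ofPred_finite_subset (base_countable.union (ha.image e))
    · exact (hS n Φ hΦ.1).2.2
  set a : ℕ → Set I := fun k => step^[k] ∅ with ha
  have has : ∀ k, a (k + 1) = step (a k) := fun k => Function.iterate_succ_apply' step k ∅
  have hac : ∀ k, (a k).Countable := by
    intro k
    induction k with
    | zero => exact Set.countable_empty
    | succ k ih =>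
      rw [has]
      exact hstepc _ ih
  have hmono : Monotone a := by
    refine monotone_nat_of_le_succ fun k => ?_
    rw [has]
    exact Set.subset_union_left
  set A : Set I := ⋃ k, a k with hA
  have hAc : A.Countable := Set.countable_iUnion hac
  have hclosed : ∀ n (Φ : Set Pt), Φ.Finite → Φ ⊆ T A → ∀ α ∉ A, e α ∈ S n Φ := by
    intro n Φ hΦ hsub α hα
    by_contra hcon
    apply hα
    have h2 : ∃ k, Φ ⊆ T (a k) := by
      have h3 : ∀ p ∈ Φ, ∃ k, p ∈ T (a k) := by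
        intro p hp
        rcases hsub hp with h | ⟨β, hβ, rfl⟩
        · exact ⟨0, Or.inl h⟩
        · obtain ⟨k, hk⟩ := Set.mem_iUnion.1 hβ
          exact ⟨k, Or.inr ⟨β, hk, rfl⟩⟩
      choose! k hk using h3
      obtain ⟨B, hB⟩ := (hΦ.image k).bddAbove
      refine ⟨B, fun p hp => ?_⟩
      rcases hk p hp with h | ⟨β, hβ, rfl⟩
      · exact Or.inl h
      · exact Or.inr ⟨β, hmono (hB ⟨_, hp, rfl⟩) hβ, rfl⟩
    obtain ⟨k, hk⟩ := h2
    refine Set.mem_iUnion.2 ⟨k + 1, ?_⟩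
    rw [has]
    refine Or.inr (Set.mem_iUnion.2 ⟨n, Set.mem_biUnion (show Φ ∈ _ from ⟨hΦ, hk⟩) hcon⟩)
  have hTc : (T A).Countable := base_countable.union (hAc.image e)
  have hTne : (T A).Nonempty := ⟨y true, Or.inl fun α => by simp⟩
  obtain ⟨t, ht⟩ := hTc.exists_eq_range hTne
  set Φ : ℕ → Set Pt := fun n => t '' {k | k ≤ n} with hΦ
  have hΦfin : ∀ n, (Φ n).Finite := fun n => (Set.finite_le_nat n).image t
  have hΦsub : ∀ n, Φ n ⊆ T A := by
    rintro n _ ⟨k, _, rfl⟩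
    rw [ht]
    exact ⟨k, rfl⟩
  refine ⟨fun n => S n (Φ n), fun n => (hS n (Φ n) (hΦfin n)).1, ?_⟩
  intro p
  by_cases hp : p ∈ T A
  · rw [ht] at hp
    obtain ⟨k, rfl⟩ := hp
    filter_upwards [eventually_ge_atTop k] with n hn
    exact (hS n (Φ n) (hΦfin n)).2.1 ⟨k, hn, rfl⟩
  · have h2 : ∃ α, p = e α := by
      by_contra hcon
      push Not at hcon
      exact hp (Or.inl hcon)
    obtain ⟨α, rfl⟩ := h2
    have h3 : α ∉ A := fun h => hp (Or.inr ⟨α, h, rfl⟩)
    exact Eventually.of_forall fun n => hclosed n (Φ n) (hΦfin n) (hΦsub n) α h3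

/-! ### The bad point of `Q_p(X, ℝ)` -/

open Classical in
/-- The function with value `i` on the `i`-th copy of `D` and at `y i`, and with value `1` exactly
on the `e α` with `α ∈ B`. -/
noncomputable def h (B : Set I) : Pt → ℝ
  | d i _ => if i then 1 else 0
  | y i => if i then 1 else 0
  | e α => if α ∈ B then 1 else 0

lemma h_quasicontinuous (B : Set I) : Quasicontinuous (h B) := by
  classical
  have key : ∀ (p : Pt) (i : Bool), h B p = (if i then 1 else 0) → (∀ G : Set Pt, IsOpen G → p ∈ G →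
      ∃ O : Set D, Op O ∧ O.Nonempty ∧ ∀ q ∈ O, d i q ∈ G) →
      ∀ U : Set Pt, IsOpen U → p ∈ U → ∀ V : Set ℝ, IsOpen V → h B p ∈ V →
      ∃ W : Set Pt, IsOpen W ∧ W.Nonempty ∧ W ⊆ U ∧ h B '' W ⊆ V := by
    intro p i hp hG U hU hpU V _ hpV
    obtain ⟨O, hO, ⟨q, hq⟩, hOU⟩ := hG U hU hpU
    refine ⟨cpy i O, isOpen_cpy i hO, ⟨d i q, q, hq, rfl⟩, ?_, ?_⟩
    · rintro _ ⟨r, hr, rfl⟩
      exact hOU r hr
    · rintro _ ⟨_, ⟨r, _, rfl⟩, rfl⟩
      show (if i then (1 : ℝ) else 0) ∈ V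
      rw [← hp]
      exact hpV
  rintro (⟨i, q⟩ | i | α)
  · refine key _ i rfl fun G hG hqG => ?_
    exact ⟨{r | d i r ∈ G}, (isOpen_iff.1 hG).1 i, ⟨q, hqG⟩, fun r hr => hr⟩
  · refine key _ i rfl fun G hG hiG => ?_
    obtain ⟨O, hO, hOu, hOG⟩ := (isOpen_iff.1 hG).2.1 i hiG
    exact ⟨O, hO, u.nonempty_of_mem hOu, hOG⟩
  · refine key _ (decide (α ∈ B)) (by simp [h]) fun G hG hαG => ?_
    obtain ⟨O, hO, hOu, hOG⟩ := (isOpen_iff.1 hG).2.2 α hαG
    exact ⟨O ∩ K α, hO.op.inter (K_op α), hO.inter_K_nonempty hOu,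
      fun q hq => hOG _ q hq.1 hq.2⟩

/-- The points `h B` of `Q_p(X, ℝ)`. -/
noncomputable def hQ (B : Set I) : Qp Pt := ⟨h B, h_quasicontinuous B⟩

lemma not_countable_I : ¬ (Set.univ : Set I).Countable := by
  intro h
  have hc : Countable I := Set.countable_univ_iff.1 h
  obtain ⟨f, hf⟩ := exists_surjective_nat I
  obtain ⟨n, hn⟩ := hf fun n => !(f n n)
  have h1 := congrFun hn n
  simp at h1

lemma not_frechetUrysohnAt : ¬ FrechetUrysohnAt (hQ ∅) := by
  classical
  intro hFU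
  obtain ⟨s, hs, hlim⟩ := hFU (Set.range fun F : Finset I => hQ (F : Set I)ᶜ) (by
    refine mem_closure_of_tendsto (f := fun F : Finset I => hQ (F : Set I)ᶜ) (b := atTop) ?_
      (Eventually.of_forall fun F => ⟨F, rfl⟩)
    rw [tendsto_subtype_rng, tendsto_pi_nhds]
    intro p
    refine tendsto_const_nhds.congr' ?_
    rcases p with ⟨i, q⟩ | i | α
    · exact Eventually.of_forall fun F => rfl
    · exact Eventually.of_forall fun F => rfl
    · filter_upwards [eventually_ge_atTop {α}] with F hF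
      have h1 : α ∈ F := hF (Finset.mem_singleton_self α)
      simp [hQ, h, h1])
  choose F hF using hs
  have h1 : (⋃ n, (F n : Set I)).Countable := Set.countable_iUnion fun n => (F n).countable_toSet
  obtain ⟨α, hα⟩ : ∃ α, α ∉ ⋃ n, (F n : Set I) := by
    by_contra hcon
    push Not at hcon
    exact not_countable_I (h1.mono fun x _ => hcon x)
  have h2 : Tendsto (fun n => (s n).1 (e α)) atTop (𝓝 ((hQ ∅).1 (e α))) := by
    rw [tendsto_subtype_rng, tendsto_pi_nhds] at hlim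
    exact hlim (e α)
  have h3 : ∀ n, (s n).1 (e α) = 1 := by
    intro n
    have h4 : α ∉ F n := fun h => hα (Set.mem_iUnion.2 ⟨n, h⟩)
    rw [← hF n]
    simp [hQ, h, h4]
  have h5 : (hQ ∅).1 (e α) = 0 := by simp [hQ, h]
  rw [h5] at h2
  simp only [h3] at h2
  exact absurd (tendsto_nhds_unique h2 tendsto_const_nhds) (by norm_num)

/-- **Negative answer to Q1 (in ZFC).**  There is a Hausdorff space `X` with `S₁(Ω^s, Γ^s)`, even in
its strong indexed form, such that `Q_p(X, ℝ)` is Fréchet-Urysohn at the zero function but not at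
some other point `f`. -/
theorem result : ∃ (X : Type) (_ : TopologicalSpace X), T2Space X ∧ S1OmegaGamma X ∧
    StrongSelection X ∧ FrechetUrysohnAt (zeroQ X) ∧ ∃ f : Qp X, ¬ FrechetUrysohnAt f :=
  ⟨Pt, topPt, inferInstance, strongSelection.s1, strongSelection,
    strongSelection.frechetUrysohnAt_zero, hQ ∅, not_frechetUrysohnAt⟩

end Pool.Agent.Results.MP_76989b_gt.NotFrechetUrysohn
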